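import Pool.Agent.Lib.MP_ff3579_an.X.Iface

/-! Module TLA of project X (MP_ff3579_an): the tail for `k ≥ 3`. -/

set_option autoImplicit false

namespace Pool.Agent.Lib.MP_ff3579_an.X.H51

open Pool.Agent.Lib.MP_ff3579_an.X

/-- the purely analytic part of `TLA` -/
theorem tla_real (k A N Q s : ℝ) (lam L1 L2 L3 LQ l2 : ℝ) (hk : 3 ≤ k) (hA : 100 ≤ A)
    (_hN : 0 ≤ N) (hQ : Q = 4 * k * (1 + A)) (hs : s ^ 2 ≤ Q)
    (hLQ : LQ = Real.log Q) (hlam : 3.09 ≤ lam) (hl2 : l2 ≤ 0.6932)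
    (hL : A * lam - l2 ≤ L3) (h1 : L1 ≤ L3 + 0.01) (h2 : L3 - 0.0102 ≤ L2) :
    (2 * k + 2) * L1 + 2 * k * (2 + A) * (2 * l2) + s * LQ + 4 * k * lam < 4 * k * L2 := by
  have hX : 300 ≤ k * A := by nlinarith
  have hQX : Q ≤ 4.04 * (k * A) := by rw [hQ]; nlinarith
  have hQ1 : 1212 ≤ Q := by rw [hQ]; nlinarith
  -- the square root
  set y : ℝ := Real.sqrt Q with hy
  have hyy : y * y = Q := Real.mul_self_sqrt (by linarith)
  have hy34 : 34.8 ≤ y := by
    rw [hy]
    apply Real.le_sqrt_of_sq_le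
    norm_num
    linarith
  have hsy : s ≤ y := by
    rw [hy]
    exact Real.le_sqrt_of_sq_le hs
  have hlogy : Real.log y ≤ y / 32 + 2.466 := by
    have hy0 : 0 < y := by linarith
    have e : Real.log y = Real.log 32 + Real.log (y / 32) := by
      rw [Real.log_div hy0.ne' (by norm_num)]; ring
    have e2 : Real.log 32 = 5 * Real.log 2 := by
      rw [show (32 : ℝ) = 2 ^ (5 : ℕ) by norm_num, Real.log_pow]; norm_num
    have e3 : Real.log (y / 32) ≤ y / 32 - 1 := Real.log_le_sub_one_of_pos (by positivity)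
    have e4 : Real.log 2 < 0.6931471808 := Real.log_two_lt_d9
    linarith
  have hLQy : LQ = 2 * Real.log y := by
    rw [hLQ, ← hyy, Real.log_mul (by linarith) (by linarith)]; ring
  have hLQ0 : 0 ≤ LQ := by
    rw [hLQ]; exact Real.log_nonneg (by linarith)
  have hsL : s * LQ ≤ 0.21 * Q := by
    calc s * LQ ≤ y * LQ := mul_le_mul_of_nonneg_right hsy hLQ0
      _ ≤ y * (2 * (y / 32 + 2.466)) := by
          apply mul_le_mul_of_nonneg_left _ (by linarith)
          rw [hLQy]; linarith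
      _ = Q / 16 + 4.932 * y := by rw [← hyy]; ring
      _ ≤ 0.21 * Q := by nlinarith
  have hL3 : 0 ≤ L3 := by nlinarith
  have hk2 : (0 : ℝ) ≤ 2 * k + 2 := by linarith
  have e1 : (2 * k + 2) * L1 ≤ (2 * k + 2) * (L3 + 0.01) := mul_le_mul_of_nonneg_left h1 hk2
  have e2 : 4 * k * (L3 - 0.0102) ≤ 4 * k * L2 := mul_le_mul_of_nonneg_left h2 (by linarith)
  have e3 : (4 * k / 3) * (A * lam - 0.6932) ≤ (2 * k - 2) * L3 := by
    have : A * lam - 0.6932 ≤ L3 := by linarith
    have h0 : 0 ≤ A * lam - 0.6932 := by nlinarith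
    have hk3 : 4 * k / 3 ≤ 2 * k - 2 := by linarith
    calc (4 * k / 3) * (A * lam - 0.6932) ≤ (2 * k - 2) * (A * lam - 0.6932) :=
          mul_le_mul_of_nonneg_right hk3 h0
      _ ≤ (2 * k - 2) * L3 := mul_le_mul_of_nonneg_left this (by linarith)
  have e4 : 2 * k * (2 + A) * (2 * l2) ≤ 2 * k * (2 + A) * (2 * 0.6932) := by
    apply mul_le_mul_of_nonneg_left (by linarith)
    positivity
  have e5 : (4 * A / 3 - 4) * 3.09 ≤ (4 * A / 3 - 4) * lam :=
    mul_le_mul_of_nonneg_left hlam (by linarith)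
  have e6 : k * ((4 * A / 3 - 4) * 3.09) ≤ k * ((4 * A / 3 - 4) * lam) :=
    mul_le_mul_of_nonneg_left e5 (by linarith)
  have e7 : 100 * k ≤ k * A := by nlinarith
  nlinarith [e1, e2, e3, e4, e6, e7, hsL, hQX]

theorem log22 : (3.09 : ℝ) ≤ Real.log 22 := by
  rw [Real.le_log_iff_exp_le (by norm_num)]
  have h1 : Real.exp 3.09 = Real.exp 1 ^ (3 : ℕ) * Real.exp 0.01 ^ (9 : ℕ) := by
    rw [← Real.exp_nat_mul, ← Real.exp_nat_mul, ← Real.exp_add]; norm_num
  have h2 : Real.exp 0.01 ≤ 1 / (1 - 0.01) :=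
    (Real.exp_bound_div_one_sub_of_interval' (x := 0.01) (by norm_num) (by norm_num)).le
  have h3 : Real.exp 1 ≤ 2.7182818286 := Real.exp_one_lt_d9.le
  have h4 : Real.exp 1 ^ (3 : ℕ) ≤ 2.7182818286 ^ (3 : ℕ) := pow_le_pow_left₀ (Real.exp_pos _).le h3 _
  have h5 : Real.exp 0.01 ^ (9 : ℕ) ≤ (1 / (1 - 0.01)) ^ (9 : ℕ) :=
    pow_le_pow_left₀ (Real.exp_pos _).le h2 _
  rw [h1]
  calc Real.exp 1 ^ (3 : ℕ) * Real.exp 0.01 ^ (9 : ℕ)
      ≤ 2.7182818286 ^ (3 : ℕ) * (1 / (1 - 0.01)) ^ (9 : ℕ) :=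
        mul_le_mul h4 h5 (by positivity) (by positivity)
    _ ≤ 22 := by norm_num

/-- module TLA -/
theorem tla (hPi : Pi2Statement) (hBad : BadStatement) : TlaStatement := by
  intro N k hk hT
  have hT' : (8 * k - 2) ^ 100 ≤ 2 * N := by
    have : T k = (8 * k - 2) ^ 100 := by
      unfold T
      rw [if_neg (by omega)]
    rw [← this]; exact hT
  obtain ⟨a, ha⟩ : ∃ a, a = 8 * k - 2 := ⟨_, rfl⟩
  have ha22 : 22 ≤ a := by omega
  rw [← ha] at hT'
  obtain ⟨A, hA⟩ : ∃ A, A = Nat.log a (2 * N) := ⟨_, rfl⟩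
  have hA100 : 100 ≤ A := by
    rw [hA]; exact Nat.le_log_of_pow_le (by omega) hT'
  have h2N : 0 < 2 * N := lt_of_lt_of_le (by positivity) hT'
  have hN0 : 0 < N := by omega
  have hAle : a ^ A ≤ 2 * N := by
    rw [hA]; exact Nat.pow_log_le_self a (by omega)
  have hNk : 200 * k ≤ N := by
    have h3 : a ^ 3 ≤ a ^ 100 := Nat.pow_le_pow_right (by omega) (by norm_num)
    have h4 : 22 ^ 2 * a ≤ a ^ 3 := by
      have : 22 ^ 2 ≤ a ^ 2 := Nat.pow_le_pow_left ha22 2
      calc 22 ^ 2 * a ≤ a ^ 2 * a := Nat.mul_le_mul_right _ this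
        _ = a ^ 3 := by ring
    omega
  -- the bound of the bad part
  obtain ⟨Q, hQ⟩ : ∃ Q, Q = 4 * k * (1 + A) := ⟨_, rfl⟩
  have hb := hBad N k (8 * k - 2) (by omega) (by omega) (by omega)
  rw [← ha, ← hA, ← hQ] at hb
  have hmax : max a (2 * k * (2 + A)) = 2 * k * (2 + A) := by
    apply max_eq_right
    have h8 : k * 100 ≤ k * A := Nat.mul_le_mul_left k hA100
    have h9 : 2 * k * (2 + A) = 4 * k + 2 * (k * A) := by ring
    omega
  rw [hmax] at hb
  have hpi := hPi.2.1 k (by omega)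
  unfold Win
  -- everything in terms of real numbers
  have hwin : (N + 2 * k) ^ (2 * k + 2) * (4 ^ (2 * k * (2 + A)) * Q ^ Nat.sqrt Q) <
      (N + 2 * k).choose (4 * k) := by
    have hNR : (0 : ℝ) < N := by exact_mod_cast hN0
    have hkR : (3 : ℝ) ≤ k := by exact_mod_cast hk
    have hAR : (100 : ℝ) ≤ A := by exact_mod_cast hA100
    have hNkR : 200 * (k : ℝ) ≤ N := by exact_mod_cast hNk
    have hQR : (Q : ℝ) = 4 * k * (1 + A) := by rw [hQ]; push_cast; ring
    have haR : (a : ℝ) = 8 * k - 2 := by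
      rw [ha, Nat.cast_sub (by omega)]; push_cast; ring
    have haR22 : (22 : ℝ) ≤ a := by exact_mod_cast ha22
    have hM : ((N + 1 - 2 * k : ℕ) : ℝ) = N + 1 - 2 * k := by
      rw [Nat.cast_sub (by omega)]; push_cast; ring
    have hMpos : (0 : ℝ) < N + 1 - 2 * k := by linarith
    have hQpos : (0 : ℝ) < Q := by rw [hQR]; nlinarith
    have key := tla_real k A N Q (Nat.sqrt Q) (Real.log a) (Real.log (N + 2 * k))
      (Real.log (N + 1 - 2 * k)) (Real.log N) (Real.log Q) (Real.log 2) hkR hAR hNR.le hQR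
      (by
        have := Nat.sqrt_le' Q
        exact_mod_cast this)
      rfl
      (by
        have h1 : Real.log 22 ≤ Real.log a := Real.log_le_log (by norm_num) haR22
        have h2 := log22
        linarith)
      (by have := Real.log_two_lt_d9; linarith)
      (by
        have h1 : Real.log ((a : ℝ) ^ A) ≤ Real.log (2 * N) :=
          Real.log_le_log (by positivity) (by exact_mod_cast hAle)
        rw [Real.log_pow, Real.log_mul (by norm_num) hNR.ne'] at h1
        linarith)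
      (by
        have h1 : Real.log (N + 2 * k) ≤ Real.log (N * 1.01) :=
          Real.log_le_log (by positivity) (by linarith)
        rw [Real.log_mul hNR.ne' (by norm_num)] at h1
        have h2 : Real.log 1.01 ≤ 1.01 - 1 := Real.log_le_sub_one_of_pos (by norm_num)
        linarith)
      (by
        have h1 : Real.log (N * 0.99) ≤ Real.log (N + 1 - 2 * k) :=
          Real.log_le_log (by positivity) (by linarith)
        rw [Real.log_mul hNR.ne' (by norm_num)] at h1
        have h2 : 1 - (0.99 : ℝ)⁻¹ ≤ Real.log 0.99 := Real.one_sub_inv_le_log_of_pos (by norm_num)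
        have h3 : (0.99 : ℝ)⁻¹ ≤ 1.0102 := by norm_num
        linarith)
    -- from logarithms to numbers
    have hchoose : ((N + 1 - 2 * k : ℕ) : ℝ) ^ (4 * k) ≤
        ((4 * k : ℕ) : ℝ) ^ (4 * k) * ((N + 2 * k).choose (4 * k) : ℕ) := by
      have h1 : (N + 2 * k + 1 - 4 * k) ^ (4 * k) ≤ (N + 2 * k).descFactorial (4 * k) :=
        Nat.pow_sub_le_descFactorial _ _
      rw [Nat.descFactorial_eq_factorial_mul_choose] at h1
      have h2 : (4 * k).factorial ≤ (4 * k) ^ (4 * k) := Nat.factorial_le_pow (4 * k)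
      have h3 : N + 2 * k + 1 - 4 * k = N + 1 - 2 * k := by omega
      rw [h3] at h1
      have h4 := h1.trans (Nat.mul_le_mul_right _ h2)
      exact_mod_cast h4
    have hC0 : 0 < (N + 2 * k).choose (4 * k) := Nat.choose_pos (by omega)
    have hC : (0 : ℝ) < ((N + 2 * k).choose (4 * k) : ℕ) := by exact_mod_cast hC0
    have hlog := Real.log_le_log (by rw [hM]; positivity) hchoose
    rw [Real.log_pow, Real.log_mul (by positivity) hC.ne', Real.log_pow, hM] at hlog
    have h4k : Real.log ((4 * k : ℕ) : ℝ) ≤ Real.log a := by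
      apply Real.log_le_log
      · push_cast; linarith
      · push_cast; rw [haR]; linarith
    have h4k' : 4 * (k : ℝ) * Real.log ((4 * k : ℕ) : ℝ) ≤ 4 * k * Real.log a :=
      mul_le_mul_of_nonneg_left h4k (by linarith)
    have hX0 : (0 : ℝ) < ((N + 2 * k) ^ (2 * k + 2) * (4 ^ (2 * k * (2 + A)) * Q ^ Nat.sqrt Q) : ℕ) := by
      push_cast; positivity
    have hlogX : Real.log ((N + 2 * k) ^ (2 * k + 2) * (4 ^ (2 * k * (2 + A)) * Q ^ Nat.sqrt Q) : ℕ) =
        (2 * k + 2) * Real.log (N + 2 * k) + 2 * k * (2 + A) * (2 * Real.log 2) +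
          (Nat.sqrt Q : ℝ) * Real.log Q := by
      have e4 : Real.log 4 = 2 * Real.log 2 := by
        rw [show (4 : ℝ) = 2 ^ (2 : ℕ) by norm_num, Real.log_pow]; norm_num
      push_cast
      rw [Real.log_mul (by positivity) (by positivity), Real.log_mul (by positivity) (by positivity),
        Real.log_pow, Real.log_pow, Real.log_pow, e4]
      push_cast
      ring
    have hfin : Real.log ((N + 2 * k) ^ (2 * k + 2) * (4 ^ (2 * k * (2 + A)) * Q ^ Nat.sqrt Q) : ℕ) <
        Real.log ((N + 2 * k).choose (4 * k) : ℕ) := by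
      rw [hlogX]
      push_cast at hlog
      push_cast at h4k'
      linarith
    have := (Real.log_lt_log_iff hX0 hC).mp hfin
    exact_mod_cast this
  calc (N + 2 * k) ^ (Nat.primesBelow (8 * k - 2)).card * ∏ p ∈ badSet N k, fac N k p
      ≤ (N + 2 * k) ^ (2 * k + 2) * (4 ^ (2 * k * (2 + A)) * Q ^ Nat.sqrt Q) := by
        apply Nat.mul_le_mul _ hb
        exact Nat.pow_le_pow_right (by omega) hpi
    _ < (N + 2 * k).choose (4 * k) := hwin

end Pool.Agent.Lib.MP_ff3579_an.X.H51
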