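import Pool.Agent.Lib.MP_ff3579_an.X.Iface

/-! Module TLB of project X (MP_ff3579_an): the tail for `k = 1, 2`. -/

set_option autoImplicit false

namespace Pool.Agent.Lib.MP_ff3579_an.X.H51

open Pool.Agent.Lib.MP_ff3579_an.X

/-- the purely analytic part of `TLB` -/
theorem tlb_real (k M Q s n64 : ℝ) (L1 L2 L3 LQ l2 : ℝ) (hk : 1 ≤ k) (hk2 : k ≤ 2)
    (hM : 7800 ≤ M) (hQ1 : 1 ≤ Q) (hQ : Q ≤ 1.56 * (k * M)) (hs : s ^ 2 ≤ Q)
    (hLQ : LQ = Real.log Q) (hl2 : l2 ≤ 0.6932) (hl2' : 0.6931 ≤ l2) (hn : n64 ≤ M / 6)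
    (hL : L3 = (M - 1) * l2) (h1 : L1 ≤ L3 + 0.01) (h2 : L3 - 0.01 ≤ L2) :
    3 * k * L1 + (64 + 2 * k * (2 + n64)) * (2 * l2) + s * LQ + 16 * l2 < 4 * k * L2 := by
  obtain ⟨R, hR⟩ : ∃ R, R = 1.56 * (k * M) := ⟨_, rfl⟩
  rw [← hR] at hQ
  have hkM : 7800 ≤ k * M := by nlinarith
  have hR0 : 12168 ≤ R := by rw [hR]; linarith
  set y : ℝ := Real.sqrt R with hy
  have hyy : y * y = R := Real.mul_self_sqrt (by linarith)
  have hy110 : 110 ≤ y := by
    rw [hy]
    apply Real.le_sqrt_of_sq_le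
    norm_num
    linarith
  have hsy : s ≤ y := by
    rw [hy]
    exact Real.le_sqrt_of_sq_le (by linarith)
  have hlogy : Real.log y ≤ y / 64 + 3.1592 := by
    have hy0 : 0 < y := by linarith
    have e : Real.log y = Real.log 64 + Real.log (y / 64) := by
      rw [Real.log_div hy0.ne' (by norm_num)]; ring
    have e2 : Real.log 64 = 6 * Real.log 2 := by
      rw [show (64 : ℝ) = 2 ^ (6 : ℕ) by norm_num, Real.log_pow]; norm_num
    have e3 : Real.log (y / 64) ≤ y / 64 - 1 := Real.log_le_sub_one_of_pos (by positivity)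
    have e4 : Real.log 2 < 0.6931471808 := Real.log_two_lt_d9
    linarith
  have hLQy : LQ ≤ 2 * Real.log y := by
    have h1 : Real.log Q ≤ Real.log R := Real.log_le_log (by linarith) hQ
    have h2 : Real.log R = 2 * Real.log y := by
      rw [← hyy, Real.log_mul (by linarith) (by linarith)]; ring
    rw [hLQ]; linarith
  have hLQ0 : 0 ≤ LQ := by
    rw [hLQ]; exact Real.log_nonneg (by linarith)
  have hsL : s * LQ ≤ 0.09 * R := by
    calc s * LQ ≤ y * LQ := mul_le_mul_of_nonneg_right hsy hLQ0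
      _ ≤ y * (2 * (y / 64 + 3.1592)) := by
          apply mul_le_mul_of_nonneg_left _ (by linarith)
          linarith
      _ = R / 32 + 6.3184 * y := by rw [← hyy]; ring
      _ ≤ 0.09 * R := by nlinarith
  have e1 : 3 * k * L1 ≤ 3 * k * (L3 + 0.01) := mul_le_mul_of_nonneg_left h1 (by linarith)
  have e2 : 4 * k * (L3 - 0.01) ≤ 4 * k * L2 := mul_le_mul_of_nonneg_left h2 (by linarith)
  have e3 : (64 + 2 * k * (2 + n64)) * (2 * l2) ≤ (64 + 2 * k * (2 + M / 6)) * (2 * l2) := by
    apply mul_le_mul_of_nonneg_right _ (by linarith)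
    have : 2 * k * (2 + n64) ≤ 2 * k * (2 + M / 6) :=
      mul_le_mul_of_nonneg_left (by linarith) (by linarith)
    linarith
  have e4 : k * L3 = (k * M - k) * l2 := by rw [hL]; ring
  have e5 : (k * M) * 0.6931 ≤ (k * M) * l2 := mul_le_mul_of_nonneg_left hl2' (by linarith)
  have e6 : k * l2 ≤ k * 0.6932 := mul_le_mul_of_nonneg_left hl2 (by linarith)
  have e7 : (64 + 2 * k * (2 + M / 6)) * (2 * l2) = 128 * l2 + 8 * (k * l2) + 2 / 3 * ((k * M) * l2) := by
    ring
  nlinarith [e1, e2, e3, e4, e5, e6, e7, hsL]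

/-- module TLB -/
theorem tlb (hPi : Pi2Statement) (hBad : BadStatement) : TlbStatement := by
  intro N k hk hk2 hT
  have hT' : 2 ^ 7800 ≤ 2 * N := by
    have : T k = 2 ^ 7800 := by
      unfold T
      rw [if_pos hk2]
    rw [← this]; exact hT
  obtain ⟨E, hE⟩ : ∃ E : ℕ, E = 7800 := ⟨_, rfl⟩
  rw [← hE] at hT'
  have h2N : 0 < 2 * N := lt_of_lt_of_le (by positivity) hT'
  have hN0 : 0 < N := by omega
  have hN1000 : 1000 ≤ N := by
    have h3 : 2 ^ 11 ≤ 2 ^ E := Nat.pow_le_pow_right (by omega) (by omega)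
    omega
  clear hT
  obtain ⟨A, hA⟩ : ∃ A, A = Nat.log (8 * k - 2) (2 * N) := ⟨_, rfl⟩
  obtain ⟨m, hm⟩ : ∃ m, m = Nat.log 64 (2 * N) := ⟨_, rfl⟩
  have hAle : (8 * k - 2) ^ A ≤ 2 * N := by
    rw [hA]; exact Nat.pow_log_le_self _ (by omega)
  have hmle : 64 ^ m ≤ 2 * N := by
    rw [hm]; exact Nat.pow_log_le_self _ (by omega)
  obtain ⟨Q, hQ⟩ : ∃ Q, Q = 4 * k * (1 + A) := ⟨_, rfl⟩
  have hb := hBad N k 64 (by omega) (by omega) (by omega)
  rw [← hA, ← hm, ← hQ] at hb
  have hb' : ∏ p ∈ badSet N k, fac N k p ≤ 4 ^ (64 + 2 * k * (2 + m)) * Q ^ Nat.sqrt Q := by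
    refine hb.trans (Nat.mul_le_mul_right _ (Nat.pow_le_pow_right (by norm_num) ?_))
    exact max_le (by omega) (by omega)
  have hpi : (Nat.primesBelow (8 * k - 2)).card = 3 * k := by
    have : k = 1 ∨ k = 2 := by omega
    rcases this with rfl | rfl
    · exact hPi.2.2.1
    · exact hPi.2.2.2
  unfold Win
  have hwin : (N + 2 * k) ^ (3 * k) * (4 ^ (64 + 2 * k * (2 + m)) * Q ^ Nat.sqrt Q) <
      (N + 2 * k).choose (4 * k) := by
    have hNR : (0 : ℝ) < N := by exact_mod_cast hN0
    have hNR1 : (1000 : ℝ) ≤ N := by exact_mod_cast hN1000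
    have hkR : (1 : ℝ) ≤ k := by exact_mod_cast hk
    have hkR2 : (k : ℝ) ≤ 2 := by exact_mod_cast hk2
    have hQR : (Q : ℝ) = 4 * k * (1 + A) := by rw [hQ]; push_cast; ring
    have hQ1 : 1 ≤ Q := by rw [hQ]; nlinarith
    have hQ1R : (1 : ℝ) ≤ Q := by exact_mod_cast hQ1
    have hMc : ((N + 1 - 2 * k : ℕ) : ℝ) = N + 1 - 2 * k := by
      rw [Nat.cast_sub (by omega)]; push_cast; ring
    have hMpos : (0 : ℝ) < N + 1 - 2 * k := by linarith
    have hl2 : (0.6931 : ℝ) ≤ Real.log 2 := by have := Real.log_two_gt_d9; linarith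
    have hl2' : Real.log 2 ≤ 0.6932 := by have := Real.log_two_lt_d9; linarith
    have hl0 : 0 < Real.log 2 := by linarith
    obtain ⟨M, hMdef⟩ : ∃ M : ℝ, M = Real.log (2 * N) / Real.log 2 := ⟨_, rfl⟩
    have hMl : M * Real.log 2 = Real.log (2 * N) := by
      rw [hMdef]; exact div_mul_cancel₀ _ hl0.ne'
    have hlogN : Real.log N = (M - 1) * Real.log 2 := by
      rw [Real.log_mul (by norm_num) hNR.ne'] at hMl
      linarith
    have hM7800 : 7800 ≤ M := by
      have h1 : Real.log ((2 : ℝ) ^ E) ≤ Real.log (2 * N) := by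
        apply Real.log_le_log (by positivity)
        exact_mod_cast hT'
      rw [Real.log_pow, ← hMl, hE] at h1
      have h2 : (7800 : ℝ) * Real.log 2 ≤ M * Real.log 2 := by exact_mod_cast h1
      exact le_of_mul_le_mul_right h2 hl0
    have hmM : (m : ℝ) ≤ M / 6 := by
      have h1 : Real.log ((64 : ℝ) ^ m) ≤ Real.log (2 * N) := by
        apply Real.log_le_log (by positivity)
        exact_mod_cast hmle
      have e2 : Real.log 64 = 6 * Real.log 2 := by
        rw [show (64 : ℝ) = 2 ^ (6 : ℕ) by norm_num, Real.log_pow]; norm_num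
      rw [Real.log_pow, ← hMl, e2] at h1
      have h2 : (m * 6 : ℝ) * Real.log 2 ≤ M * Real.log 2 := by linarith
      have h3 := le_of_mul_le_mul_right h2 hl0
      linarith
    have hAM : (Q : ℝ) ≤ 1.56 * (k * M) := by
      have hk12 : k = 1 ∨ k = 2 := by omega
      rcases hk12 with rfl | rfl
      · have h1 : Real.log ((6 : ℝ) ^ A) ≤ Real.log (2 * N) := by
          apply Real.log_le_log (by positivity)
          exact_mod_cast hAle
        have e2 : 31 * Real.log 2 ≤ 12 * Real.log 6 := by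
          have h5 : Real.log ((2 : ℝ) ^ 31) ≤ Real.log ((6 : ℝ) ^ 12) :=
            Real.log_le_log (by norm_num) (by norm_num)
          rw [Real.log_pow, Real.log_pow] at h5
          exact_mod_cast h5
        rw [Real.log_pow, ← hMl] at h1
        have hA0 : (0 : ℝ) ≤ A := by positivity
        have h2 : (31 * A : ℝ) * Real.log 2 ≤ (12 * M) * Real.log 2 := by nlinarith
        have h3 := le_of_mul_le_mul_right h2 hl0
        rw [hQR]
        push_cast
        linarith
      · have h1 : Real.log ((14 : ℝ) ^ A) ≤ Real.log (2 * N) := by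
          apply Real.log_le_log (by positivity)
          exact_mod_cast hAle
        have e2 : 3 * Real.log 2 ≤ Real.log 14 := by
          have h5 : Real.log ((2 : ℝ) ^ 3) ≤ Real.log 14 :=
            Real.log_le_log (by norm_num) (by norm_num)
          rw [Real.log_pow] at h5
          exact_mod_cast h5
        rw [Real.log_pow, ← hMl] at h1
        have hA0 : (0 : ℝ) ≤ A := by positivity
        have h2 : (3 * A : ℝ) * Real.log 2 ≤ M * Real.log 2 := by nlinarith
        have h3 := le_of_mul_le_mul_right h2 hl0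
        rw [hQR]
        push_cast
        linarith
    have key := tlb_real k M Q (Nat.sqrt Q) m (Real.log (N + 2 * k))
      (Real.log (N + 1 - 2 * k)) (Real.log N) (Real.log Q) (Real.log 2) hkR hkR2 hM7800 hQ1R hAM
      (by
        have := Nat.sqrt_le' Q
        exact_mod_cast this)
      rfl hl2' hl2 hmM hlogN
      (by
        have h1 : Real.log (N + 2 * k) ≤ Real.log (N * 1.01) :=
          Real.log_le_log (by positivity) (by linarith)
        rw [Real.log_mul hNR.ne' (by norm_num)] at h1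
        have h2 : Real.log 1.01 ≤ 1.01 - 1 := Real.log_le_sub_one_of_pos (by norm_num)
        linarith)
      (by
        have h1 : Real.log (N * 0.995) ≤ Real.log (N + 1 - 2 * k) :=
          Real.log_le_log (by positivity) (by linarith)
        rw [Real.log_mul hNR.ne' (by norm_num)] at h1
        have h2 : 1 - (0.995 : ℝ)⁻¹ ≤ Real.log 0.995 := Real.one_sub_inv_le_log_of_pos (by norm_num)
        have h3 : (0.995 : ℝ)⁻¹ ≤ 1.01 := by norm_num
        linarith)
    -- from logarithms to numbers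
    have hchoose : ((N + 1 - 2 * k : ℕ) : ℝ) ^ (4 * k) ≤
        (2 : ℝ) ^ 16 * ((N + 2 * k).choose (4 * k) : ℕ) := by
      have h1 : (N + 2 * k + 1 - 4 * k) ^ (4 * k) ≤ (N + 2 * k).descFactorial (4 * k) :=
        Nat.pow_sub_le_descFactorial _ _
      rw [Nat.descFactorial_eq_factorial_mul_choose] at h1
      have h2 : (4 * k).factorial ≤ 2 ^ 16 := by
        have : k = 1 ∨ k = 2 := by omega
        rcases this with rfl | rfl <;> decide
      have h3 : N + 2 * k + 1 - 4 * k = N + 1 - 2 * k := by omega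
      rw [h3] at h1
      have h4 := h1.trans (Nat.mul_le_mul_right _ h2)
      exact_mod_cast h4
    have hC0 : 0 < (N + 2 * k).choose (4 * k) := Nat.choose_pos (by omega)
    have hC : (0 : ℝ) < ((N + 2 * k).choose (4 * k) : ℕ) := by exact_mod_cast hC0
    have hlog := Real.log_le_log (by rw [hMc]; positivity) hchoose
    rw [Real.log_pow, Real.log_mul (by positivity) hC.ne', Real.log_pow, hMc] at hlog
    have hX0 : (0 : ℝ) < ((N + 2 * k) ^ (3 * k) * (4 ^ (64 + 2 * k * (2 + m)) * Q ^ Nat.sqrt Q) : ℕ) := by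
      push_cast; positivity
    have hlogX : Real.log ((N + 2 * k) ^ (3 * k) * (4 ^ (64 + 2 * k * (2 + m)) * Q ^ Nat.sqrt Q) : ℕ) =
        3 * k * Real.log (N + 2 * k) + (64 + 2 * k * (2 + m)) * (2 * Real.log 2) +
          (Nat.sqrt Q : ℝ) * Real.log Q := by
      have e4 : Real.log 4 = 2 * Real.log 2 := by
        rw [show (4 : ℝ) = 2 ^ (2 : ℕ) by norm_num, Real.log_pow]; norm_num
      push_cast
      rw [Real.log_mul (by positivity) (by positivity), Real.log_mul (by positivity) (by positivity),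
        Real.log_pow, Real.log_pow, Real.log_pow, e4]
      push_cast
      ring
    have hfin : Real.log ((N + 2 * k) ^ (3 * k) * (4 ^ (64 + 2 * k * (2 + m)) * Q ^ Nat.sqrt Q) : ℕ) <
        Real.log ((N + 2 * k).choose (4 * k) : ℕ) := by
      rw [hlogX]
      push_cast at hlog
      linarith
    have := (Real.log_lt_log_iff hX0 hC).mp hfin
    exact_mod_cast this
  rw [hpi]
  calc (N + 2 * k) ^ (3 * k) * ∏ p ∈ badSet N k, fac N k p
      ≤ (N + 2 * k) ^ (3 * k) * (4 ^ (64 + 2 * k * (2 + m)) * Q ^ Nat.sqrt Q) :=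
        Nat.mul_le_mul_left _ hb'
    _ < (N + 2 * k).choose (4 * k) := hwin

end Pool.Agent.Lib.MP_ff3579_an.X.H51
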